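import Pool.Agent.Y345.LD.Main

/-!
# The joint spectrum of width, dimension and local dimension

Stronger form of `MP_33e188_co.MaxLocalDimension` (the largest local dimension of a finite poset of
width `w` is `w`).  Definitions used in the statement: `width`, `ldim`, `IsLocalRealizer`,
`PartialLinearExtension` (in `Pool.Agent.Results.MP_33e188_co.MaxLocalDimension`) and `dim`, the
Dushnik-Miller dimension (in `Pool.Agent.Y345.LD.Basic`).

Proof.  Necessity: local dimension at most `2` implies dimension at most `2` (two incomparable
elements lie in exactly the same two members of a local realizer with frequency two; gluing along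
the order of the blocks gives two linear extensions).  Sufficiency: the ordinal sum of the poset of
width `d` and local dimension `d` of the starting file, of the standard example with `2δ` elements
(dimension `δ`, local dimension three) and of an antichain with `w` elements; a local realizer with
one full member can be concatenated with another one without increasing the frequencies.
-/

set_option autoImplicit false

namespace Pool.Agent.Results.MP_33e188_co.JointSpectrum

open Pool.Agent.Results.MP_33e188_co.MaxLocalDimension Pool.Agent.Y345.LD

/-- **The joint spectrum of width, dimension and local dimension of finite posets.**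
Let `w ≥ 1`.
* The largest local dimension of a finite poset of width `w` is `w`.
* There is a finite poset of width `w`, dimension `δ` and local dimension `d` if and only if
  `w = 1` and `δ = d ≤ 1`, or `w ≥ 2` and either `δ = d = 2` or `3 ≤ d ≤ δ ≤ w`.
* If `w ≥ 2`, every such triple is attained robustly: there are `K` and arbitrarily large finite
  posets `P` such that `width`, `dim` and `ldim` are `w`, `δ` and `d` for every poset which is
  obtained from `P` by deleting at most the `K`-th part of its elements. -/
theorem result (w : ℕ) (hw : 1 ≤ w) :
    IsGreatest {d : ℕ | ∃ (P : Type) (_ : PartialOrder P) (_ : Finite P),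
      width P = w ∧ ldim P = d} w ∧
    (∀ δ d : ℕ,
      (∃ (P : Type) (_ : PartialOrder P) (_ : Finite P), width P = w ∧ dim P = δ ∧ ldim P = d) ↔
        (w = 1 ∧ δ = d ∧ d ≤ 1) ∨
        (2 ≤ w ∧ ((δ = 2 ∧ d = 2) ∨ (3 ≤ d ∧ d ≤ δ ∧ δ ≤ w)))) ∧
    (2 ≤ w → ∀ δ d : ℕ, ((δ = 2 ∧ d = 2) ∨ (3 ≤ d ∧ d ≤ δ ∧ δ ≤ w)) →
      ∃ K : ℕ, ∀ N : ℕ, ∃ (P : Type) (_ : PartialOrder P) (_ : Finite P), N ≤ Nat.card P ∧
        ∀ D : Finset P, K * D.card ≤ Nat.card P →
          width {x : P // x ∉ D} = w ∧ dim {x : P // x ∉ D} = δ ∧ ldim {x : P // x ∉ D} = d) := by
  refine ⟨MaxLocalDimension.result w hw, ?_, fun h2 δ d h => robust h2 h⟩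
  intro δ d
  rcases Nat.lt_or_ge 1 w with h2 | h2
  · rw [spectrum h2]
    constructor
    · intro h
      exact Or.inr ⟨h2, h⟩
    · rintro (⟨h, -⟩ | ⟨-, h⟩)
      · omega
      · exact h
  · have h1 : w = 1 := by omega
    subst h1
    rw [spectrum_one]
    constructor
    · intro h
      exact Or.inl ⟨rfl, h⟩
    · rintro (⟨-, h⟩ | ⟨h, -⟩)
      · exact h
      · omega

end Pool.Agent.Results.MP_33e188_co.JointSpectrum
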