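import Pool.Agent.Y732.LD.Core
import Pool.Agent.Results.MP_33e188_co.MaxLocalDimension

/-!
# Local dimension and width: large multiplicities on maximum antichains

For every `w` there are finite posets of width `w` such that every local realizer, even an infinite
one, has maximum antichains whose elements are used more than `w - 1` times on average.
This contains the answer `f(w) = w` of the problem (starting file `MaxLocalDimension`).
-/

set_option autoImplicit false

namespace Pool.Agent.Results.MP_33e188_co.MeanAntichain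

open Pool.Agent.H713R3.LDim Pool.Agent.Results.MP_33e188_co.MaxLocalDimension

/-- A family of partial linear extensions, indexed by any type, is a local realizer if every
`x < y` holds in some member, and for every ordered pair `(x, y)` of incomparable elements some
member has `y < x`. -/
def IsLocalRealizerFam {P : Type} [PartialOrder P] {ι : Type}
    (L : ι → PartialLinearExtension P) : Prop :=
  (∀ x y : P, x < y → ∃ i, (L i).lt x y) ∧
  (∀ x y : P, ¬ x ≤ y → ¬ y ≤ x → ∃ i, (L i).lt y x)

/-- The multiplicity of `x`: the number of members of the family that contain `x` (it may be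
infinite). -/
noncomputable def mult {P : Type} [PartialOrder P] {ι : Type}
    (L : ι → PartialLinearExtension P) (x : P) : ℕ∞ :=
  {i | x ∈ (L i).carrier}.encard

theorem exists_slots' {ι : Type} {k : ℕ} (s : Set ι) (h : s.encard ≤ k) :
    ∃ g : Fin k → Option ι, (∀ i ∈ s, ∃ α, g α = some i) ∧
      ∀ α i, g α = some i → α.val < s.ncard := by
  classical
  have hfin : s.Finite := Set.finite_of_encard_le_coe h
  have hk : s.ncard ≤ k := by
    have h1 := hfin.cast_ncard_eq
    rw [← h1] at h
    exact_mod_cast h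
  have := hfin.fintype
  have hc : Fintype.card s = s.ncard := by
    rw [← Nat.card_eq_fintype_card]
    rfl
  let e : s ≃ Fin s.ncard := Fintype.equivFinOfCardEq hc
  refine ⟨fun α => if h : α.val < s.ncard then some (e.symm ⟨α.val, h⟩).1 else none, ?_, ?_⟩
  · intro i hi
    refine ⟨⟨(e ⟨i, hi⟩).val, lt_of_lt_of_le (e ⟨i, hi⟩).isLt hk⟩, ?_⟩
    simp only [Fin.is_lt, dif_pos]
    simp
  · intro α i hα
    by_contra hcon
    simp only [hcon, dif_neg, not_false_eq_true] at hα
    exact absurd hα (by simp)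

/-- shift of the tuple -/
def sh {w H : ℕ} (c : ℕ) (x : Pt w H) : Pt w H := ⟨x.lay, x.ch, fun q => x.tup q + c⟩

theorem ltUp_sh {m : ℕ} (c l : ℕ) (s t : Fin m → ℕ) :
    ltUp l (fun q => s q + c) (fun q => t q + c) ↔ ltUp l s t := by
  unfold ltUp
  simp only [add_left_inj, add_lt_add_iff_right]

theorem sh_lt {w H : ℕ} (c : ℕ) (x y : Pt w H) : sh c x < sh c y ↔ x < y := by
  show Pt.lt' (sh c x) (sh c y) ↔ Pt.lt' x y
  unfold Pt.lt' sh
  simp only [ltUp_sh]

theorem sh_inj {w H : ℕ} (c : ℕ) {x y : Pt w H} (h : sh c x = sh c y) : x = y := by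
  unfold sh at h
  rw [Pt.mk.injEq] at h
  refine Pt.ext h.1 h.2.1 (funext fun q => ?_)
  have h1 : x.tup q + c = y.tup q + c := congrFun h.2.2 q
  omega

theorem sh_le {w H : ℕ} (c : ℕ) (x y : Pt w H) : sh c x ≤ sh c y ↔ x ≤ y := by
  rw [le_iff_lt_or_eq, le_iff_lt_or_eq, sh_lt]
  constructor
  · rintro (h | h)
    · exact Or.inl h
    · exact Or.inr (sh_inj c h)
  · rintro (h | h)
    · exact Or.inl h
    · exact Or.inr (by rw [h])

/-- the point `x` of the block with shift `c` -/
def emb {w H N M : ℕ} (c : ℕ) (hc : N + c ≤ M) (x : Pt w H) (hx : ∀ q, x.tup q < N) :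
    FP w H M :=
  ⟨sh c x, fun q => by have := hx q; show x.tup q + c < M; omega⟩

theorem block (w : ℕ) (hw : 2 ≤ w) : ∃ N : ℕ, ∀ (M c : ℕ) (hc : N + c ≤ M) (ι : Type)
    (L : ι → PartialLinearExtension (FP w (w * (w - 1) + 2) M)), IsLocalRealizerFam L →
    ∃ (lam : Fin (w * (w - 1) + 2)) (a : Fin (w * w) → ℕ) (ha : ∀ q, a q < N),
      ((w * (w - 1) + 1 : ℕ) : ℕ∞) ≤ ∑ i : Fin w, mult L (emb c hc ⟨lam, i, a⟩ ha) := by
  classical
  obtain ⟨N, hN⟩ := Pool.Agent.Y732.LD.no_sys' w hw
  refine ⟨N, fun M c hc ι L hL => ?_⟩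
  by_contra hcon
  push Not at hcon
  let mem : ι → Pt w (w * (w - 1) + 2) → Prop := fun i x =>
    ∃ hx : ∀ q, x.tup q < N, emb c hc x hx ∈ (L i).carrier
  have hmu : ∀ x : Pt w (w * (w - 1) + 2), {i | mem i x}.encard ≤ ((w * (w - 1) : ℕ) : ℕ∞) := by
    intro x
    by_cases hx : ∀ q, x.tup q < N
    · have h1 := hcon x.lay x.tup hx
      have h2 : mult L (emb c hc x hx) ≤
          ∑ i : Fin w, mult L (emb c hc ⟨x.lay, i, x.tup⟩ hx) :=
        Finset.single_le_sum (f := fun i : Fin w => mult L (emb c hc ⟨x.lay, i, x.tup⟩ hx))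
          (fun _ _ => zero_le) (Finset.mem_univ x.ch)
      have h3 : {i | mem i x} ⊆ {i | emb c hc x hx ∈ (L i).carrier} := by
        rintro i ⟨_, hi⟩
        exact hi
      have h4 : ∑ i : Fin w, mult L (emb c hc ⟨x.lay, i, x.tup⟩ hx) ≤
          ((w * (w - 1) : ℕ) : ℕ∞) := by
        rw [Nat.cast_add, Nat.cast_one] at h1
        exact ENat.lt_add_one_iff (ENat.natCast_ne_top _) |>.1 h1
      exact (Set.encard_le_encard h3).trans (h2.trans h4)
    · have h3 : {i | mem i x} = ∅ := by
        rw [Set.eq_empty_iff_forall_notMem]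
        rintro i ⟨h, _⟩
        exact hx h
      rw [h3, Set.encard_empty]
      exact zero_le
  choose G hG1 hG2 using fun x => exists_slots' {i | mem i x} (hmu x)
  have hsys := hN ι
    { R := fun i x y => ∃ (hx : ∀ q, x.tup q < N) (hy : ∀ q, y.tup q < N),
        (L i).lt (emb c hc x hx) (emb c hc y hy)
      mem := mem
      hmem := by
        rintro i x y ⟨hx, hy, h⟩
        have := (L i).mem_of_lt _ _ h
        exact ⟨⟨hx, this.1⟩, ⟨hy, this.2⟩⟩
      hirr := by
        rintro i x ⟨hx, hy, h⟩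
        exact (L i).irrefl _ h
      htr := by
        rintro i x y z ⟨hx, hy, h⟩ ⟨hy', hz, h'⟩
        exact ⟨hx, hz, (L i).trans _ _ _ h h'⟩
      hext := by
        rintro i x y ⟨hx, h⟩ ⟨hy, h'⟩ hxy
        exact ⟨hx, hy, (L i).lt_of_lt _ h _ h' ((sh_lt c x y).2 hxy)⟩
      G := G
      hG := fun x i h => hG1 x i h
      hinc := by
        intro x y hx hy hxy hyx
        obtain ⟨i, hi⟩ := hL.2 (emb c hc x hx) (emb c hc y hy)
          (fun h => hxy ((sh_le c x y).1 h)) (fun h => hyx ((sh_le c y x).1 h))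
        exact ⟨i, hy, hx, hi⟩ }
    (fun x => {i | mem i x}.ncard) (fun x α i h => hG2 x α i h)
  obtain ⟨lam, a, ha, hsum⟩ := hsys
  refine absurd (hcon lam a ha) (not_lt.2 ?_)
  calc ((w * (w - 1) + 1 : ℕ) : ℕ∞)
      ≤ ((∑ i : Fin w, {j | mem j ⟨lam, i, a⟩}.ncard : ℕ) : ℕ∞) := by exact_mod_cast hsum
    _ = ∑ i : Fin w, ({j | mem j ⟨lam, i, a⟩}.ncard : ℕ∞) := by push_cast; rfl
    _ ≤ ∑ i : Fin w, mult L (emb c hc ⟨lam, i, a⟩ ha) := by
        refine Finset.sum_le_sum fun i _ => ?_
        refine (Set.ncard_le_encard _).trans (Set.encard_le_encard ?_)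
        rintro j ⟨_, hj⟩
        exact hj

theorem two_le_case (w : ℕ) (hw : 2 ≤ w) (t : ℕ) :
    ∃ (P : Type) (_ : PartialOrder P) (_ : Finite P), width P = w ∧
      ∀ (ι : Type) (L : ι → PartialLinearExtension P), IsLocalRealizerFam L →
        ∃ A : Fin t → Finset P, (∀ i j, i ≠ j → Disjoint (A i) (A j)) ∧
          ∀ j, IsAntichain (· ≤ ·) (A j : Set P) ∧ (A j).card = w ∧
            ((w * (w - 1) + 1 : ℕ) : ℕ∞) ≤ ∑ x ∈ A j, mult L x := by
  classical
  obtain ⟨N, hN⟩ := block w hw
  refine ⟨FP w (w * (w - 1) + 2) (t * N + 1), inferInstance, inferInstance,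
    width_FP w _ _ (by omega), fun ι L hL => ?_⟩
  have hc : ∀ j : Fin t, N + j.val * N ≤ t * N + 1 := by
    intro j
    have h1 : (j.val + 1) * N ≤ t * N := Nat.mul_le_mul_right _ j.isLt
    have h2 : (j.val + 1) * N = N + j.val * N := by ring
    omega
  choose lam a ha hsum using fun j : Fin t => hN (t * N + 1) (j.val * N) (hc j) ι L hL
  have hinj : ∀ j : Fin t, Function.Injective
      fun i : Fin w => emb (j.val * N) (hc j) ⟨lam j, i, a j⟩ (ha j) := by
    intro j i i' h
    have h1 := congrArg (fun x : FP w (w * (w - 1) + 2) (t * N + 1) => x.1.ch) h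
    exact h1
  refine ⟨fun j => Finset.univ.image fun i : Fin w =>
    emb (j.val * N) (hc j) ⟨lam j, i, a j⟩ (ha j), ?_, ?_⟩
  · intro j j' hjj
    rw [Finset.disjoint_left]
    intro x hx hx'
    obtain ⟨i, -, rfl⟩ := Finset.mem_image.1 hx
    obtain ⟨i', -, h⟩ := Finset.mem_image.1 hx'
    have q0 : Fin (w * w) := ⟨0, Nat.mul_pos (by omega) (by omega)⟩
    have h1 : a j' q0 + j'.val * N = a j q0 + j.val * N :=
      congrArg (fun x : FP w (w * (w - 1) + 2) (t * N + 1) => x.1.tup q0) h
    have h2 := ha j q0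
    have h3 := ha j' q0
    apply hjj
    apply Fin.ext
    rcases lt_trichotomy j.val j'.val with h4 | h4 | h4
    · exfalso
      have h5 : (j.val + 1) * N ≤ j'.val * N := Nat.mul_le_mul_right _ h4
      have h6 : (j.val + 1) * N = j.val * N + N := by ring
      omega
    · exact h4
    · exfalso
      have h5 : (j'.val + 1) * N ≤ j.val * N := Nat.mul_le_mul_right _ h4
      have h6 : (j'.val + 1) * N = j'.val * N + N := by ring
      omega
  · intro j
    refine ⟨?_, ?_, ?_⟩
    · intro x hx y hy hxy h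
      simp only [Finset.coe_image, Finset.coe_univ, Set.image_univ, Set.mem_range] at hx hy
      obtain ⟨i, rfl⟩ := hx
      obtain ⟨i', rfl⟩ := hy
      have hii : i ≠ i' := fun h => hxy (by rw [h])
      exact Pt.not_le_of_lay (x := ⟨lam j, i, a j⟩) (y := ⟨lam j, i', a j⟩) hii rfl
        ((sh_le (j.val * N) _ _).1 h)
    · rw [Finset.card_image_of_injective _ (hinj j), Finset.card_univ, Fintype.card_fin]
    · rw [Finset.sum_image (fun x _ y _ h => hinj j h)]
      exact hsum j

theorem one_case' (t : ℕ) :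
    ∃ (P : Type) (_ : PartialOrder P) (_ : Finite P), width P = 1 ∧
      ∀ (ι : Type) (L : ι → PartialLinearExtension P), IsLocalRealizerFam L →
        ∃ A : Fin t → Finset P, (∀ i j, i ≠ j → Disjoint (A i) (A j)) ∧
          ∀ j, IsAntichain (· ≤ ·) (A j : Set P) ∧ (A j).card = 1 ∧
            ((1 * (1 - 1) + 1 : ℕ) : ℕ∞) ≤ ∑ x ∈ A j, mult L x := by
  refine ⟨Fin (t + 2), inferInstance, inferInstance, ?_, ?_⟩
  · apply le_antisymm
    · apply csSup_le
      · exact ⟨0, ∅, by simp, rfl⟩
      · rintro k ⟨A, hA, rfl⟩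
        rw [Finset.card_le_one]
        intro a ha b hb
        by_contra hne
        rcases le_total a b with h | h
        · exact hA ha hb hne h
        · exact hA hb ha (Ne.symm hne) h
    · have := card_le_width (P := Fin (t + 2)) {0} (by simp)
      simpa using this
  · intro ι L hL
    refine ⟨fun j => {⟨j.val, by omega⟩}, ?_, fun j => ⟨by simp, by simp, ?_⟩⟩
    · intro i j hij
      rw [Finset.disjoint_singleton]
      intro h
      apply hij
      have h1 := congrArg Fin.val h
      exact Fin.ext h1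
    · rw [Finset.sum_singleton]
      obtain ⟨i, hi⟩ := hL.1 (⟨j.val, by omega⟩ : Fin (t + 2)) ⟨j.val + 1, by omega⟩
        (by rw [Fin.lt_def]; exact Nat.lt_succ_self _)
      have h1 : {i | (⟨j.val, by omega⟩ : Fin (t + 2)) ∈ (L i).carrier}.Nonempty :=
        ⟨i, ((L i).mem_of_lt _ _ hi).1⟩
      have h2 := Set.one_le_encard_iff_nonempty.2 h1
      simpa [mult] using h2

/-- For every `w ≥ 1`:
(1) the largest local dimension of a finite poset of width `w` is `w`;
(2) for every `t` there is a finite poset `P` of width `w` such that for every local realizer `L`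
of `P`, indexed by any type,
* there are `t` pairwise disjoint antichains of `w` elements on each of which the sum of the
  multiplicities is at least `w (w - 1) + 1`, so that the mean is larger than `w - 1`;
* for every partition of `P` into `w` chains and all upper bounds `m i` for the multiplicities on
  the `i`-th chain, the sum of the `m i` is at least `w (w - 1) + 1`. -/
theorem result (w : ℕ) (hw : 1 ≤ w) :
    IsGreatest {d : ℕ | ∃ (P : Type) (_ : PartialOrder P) (_ : Finite P),
      width P = w ∧ ldim P = d} w ∧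
    ∀ t : ℕ, ∃ (P : Type) (_ : PartialOrder P) (_ : Finite P), width P = w ∧
      ∀ (ι : Type) (L : ι → PartialLinearExtension P), IsLocalRealizerFam L →
        (∃ A : Fin t → Finset P, (∀ i j, i ≠ j → Disjoint (A i) (A j)) ∧
          ∀ j, IsAntichain (· ≤ ·) (A j : Set P) ∧ (A j).card = w ∧
            ((w * (w - 1) + 1 : ℕ) : ℕ∞) ≤ ∑ x ∈ A j, mult L x) ∧
        ∀ C : P → Fin w, (∀ x y, C x = C y → x ≤ y ∨ y ≤ x) →
          ∀ m : Fin w → ℕ∞, (∀ x, mult L x ≤ m (C x)) →
            ((w * (w - 1) + 1 : ℕ) : ℕ∞) ≤ ∑ i, m i := by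
  classical
  refine ⟨MaxLocalDimension.result w hw, fun t => ?_⟩
  have key : ∃ (P : Type) (_ : PartialOrder P) (_ : Finite P), width P = w ∧
      ∀ (ι : Type) (L : ι → PartialLinearExtension P), IsLocalRealizerFam L →
        ∃ A : Fin (t + 1) → Finset P, (∀ i j, i ≠ j → Disjoint (A i) (A j)) ∧
          ∀ j, IsAntichain (· ≤ ·) (A j : Set P) ∧ (A j).card = w ∧
            ((w * (w - 1) + 1 : ℕ) : ℕ∞) ≤ ∑ x ∈ A j, mult L x := by
    rcases Nat.lt_or_ge 1 w with h2 | h2
    · exact two_le_case w h2 (t + 1)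
    · have : w = 1 := by omega
      subst this
      exact one_case' (t + 1)
  obtain ⟨P, hP, hfin, hwd, hall⟩ := key
  refine ⟨P, hP, hfin, hwd, fun ι L hL => ?_⟩
  obtain ⟨A, hdis, hA⟩ := hall ι L hL
  refine ⟨⟨fun j => A j.castSucc, fun i j hij => hdis _ _ (fun h => hij ?_), fun j => hA _⟩, ?_⟩
  · exact Fin.castSucc_injective _ h
  · intro C hC m hm
    obtain ⟨h1, h2, h3⟩ := hA 0
    have hinj : Set.InjOn C (A 0 : Set P) := by
      intro x hx y hy hxy
      by_contra hne
      rcases hC x y hxy with h | h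
      · exact h1 hx hy hne h
      · exact h1 hy hx (Ne.symm hne) h
    have himg : (A 0).image C = Finset.univ := by
      apply Finset.eq_univ_of_card
      rw [Finset.card_image_of_injOn hinj, h2, Fintype.card_fin]
    calc ((w * (w - 1) + 1 : ℕ) : ℕ∞) ≤ ∑ x ∈ A 0, mult L x := h3
      _ ≤ ∑ x ∈ A 0, m (C x) := Finset.sum_le_sum fun x _ => hm x
      _ = ∑ i ∈ (A 0).image C, m i := (Finset.sum_image hinj).symm
      _ = ∑ i, m i := by rw [himg]

end Pool.Agent.Results.MP_33e188_co.MeanAntichain
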